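import Mathlib

set_option autoImplicit false

/-!
Definitions for the rank theorem: elementary functions, places, characteristic roots.
-/

namespace Pool.Agent.Work.MP_8d13b5_lc.Rk

open Height AdmissibleAbsValues Polynomial

/-- iterated exponentials -/
def tow : ℕ → ℕ → ℕ
  | 0, s => s + 2
  | k + 1, s => 2 ^ tow k s

/-- `f` is bounded by an iterated exponential of fixed height -/
def Elem (f : ℕ → ℕ) : Prop := ∃ k, ∀ s, f s ≤ tow k s

/-- `v` is one of the admissible absolute values of `K` -/
def IsPlace {K : Type*} [Field K] [AdmissibleAbsValues K] (v : AbsoluteValue K ℝ) : Prop :=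
  v ∈ (archAbsVal : Multiset (AbsoluteValue K ℝ)) ∨
    v ∈ (nonarchAbsVal : Set (AbsoluteValue K ℝ))

/-- the properties of a nonarchimedean place with residue field of `q` elements that we use -/
structure HasNorm {K : Type*} [Field K] [AdmissibleAbsValues K] (v : AbsoluteValue K ℝ)
    (q : ℕ) : Prop where
  mem : v ∈ (nonarchAbsVal : Set (AbsoluteValue K ℝ))
  two_le : 2 ≤ q
  le_height : ∀ x : K, x ≠ 0 → v x ≠ 1 → (q : ℝ) ≤ mulHeight₁ x
  unit : ∀ x : K, v x = 1 → v (x ^ (q - 1) - 1) ≤ 1 / 2
  half : ∀ x y : K, v x < v y → v x ≤ v y / 2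

/-- the integer polynomial `P` annihilates the sequence `u` (shift acting as `X`) -/
def Annih (P : ℤ[X]) (u : ℕ → ℤ) : Prop :=
  ∀ n, ∑ i ∈ Finset.range (P.natDegree + 1), P.coeff i * u (n + i) = 0

/-- `x` is a characteristic root of `u`: it is a root of every annihilating polynomial -/
def IsCharRoot {K : Type*} [Field K] (u : ℕ → ℤ) (x : K) : Prop :=
  ∀ P : ℤ[X], Annih P u → aeval x P = 0

end Pool.Agent.Work.MP_8d13b5_lc.Rk
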