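import Pool.Agent.Work.MP_8d13b5_lc.Rk.Defs

set_option autoImplicit false

/-! Zero estimate: an interpolation matrix has a nonzero maximal minor. -/

namespace Pool.Agent.Work.MP_8d13b5_lc.Rk

open Height AdmissibleAbsValues Polynomial Finset

/-- a finite family of independent rows has a nonzero maximal minor -/
theorem zeroEst_minor {K : Type*} [Field K] {I J : Type*} [Fintype I] [DecidableEq I]
    (M : I → J → K) (h : ∀ c : I → K, (∀ j, ∑ i, c i * M i j = 0) → c = 0) :
    ∃ f : I → J, (Matrix.of fun i j : I => M i (f j)).det ≠ 0 := by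
  classical
  set v : J → (I → K) := fun j i => M i j with hv
  have hspan : Submodule.span K (Set.range v) = ⊤ := by
    by_contra hne
    obtain ⟨g, hg0, hg⟩ := Submodule.exists_le_ker_of_lt_top _ (lt_top_iff_ne_top.2 hne)
    apply hg0
    have hgv : ∀ w : I → K, g w = ∑ i, w i * g (Pi.single i 1) := by
      intro w
      conv_lhs => rw [← Finset.univ_sum_single w]
      rw [map_sum]
      refine Finset.sum_congr rfl fun i _ => ?_
      have : (Pi.single i (w i) : I → K) = w i • (Pi.single i 1 : I → K) := by
        rw [← Pi.single_smul, smul_eq_mul, mul_one]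
      rw [this, map_smul, smul_eq_mul]
    have h0 := h (fun i => g (Pi.single i 1)) (by
      intro j
      have h1 : g (v j) = 0 := by
        have : v j ∈ LinearMap.ker g := hg (Submodule.subset_span ⟨j, rfl⟩)
        simpa using this
      rw [hgv] at h1
      rw [← h1]
      exact Finset.sum_congr rfl fun i _ => mul_comm _ _)
    refine LinearMap.ext fun w => ?_
    rw [hgv]
    simp only [LinearMap.zero_apply]
    refine Finset.sum_eq_zero fun i _ => ?_
    have := congrFun h0 i
    simp only [Pi.zero_apply] at this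
    rw [this, mul_zero]
  obtain ⟨ι, a, -, ha, hli⟩ := exists_linearIndependent' K v
  rw [hspan] at ha
  let b : Module.Basis ι K (I → K) := Module.Basis.mk hli ha.ge
  let e : I ≃ ι := (Pi.basisFun K I).indexEquiv b
  refine ⟨fun i => a (e i), ?_⟩
  have hcol : LinearIndependent K
      (Matrix.of fun i j : I => M i (a (e j))).col := by
    have h1 := hli.comp e e.injective
    exact h1
  have := Matrix.linearIndependent_cols_iff_isUnit.1 hcol
  rw [Matrix.isUnit_iff_isUnit_det] at this
  exact this.ne_zero

theorem zeroEst_coeff_prod {K : Type*} [Field K] {ι : Type*} (s : Finset ι) (f : ι → K[X])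
    (d : ι → ℕ) (h : ∀ i ∈ s, (f i).natDegree ≤ d i) :
    (∏ i ∈ s, f i).natDegree ≤ ∑ i ∈ s, d i ∧
      (∏ i ∈ s, f i).coeff (∑ i ∈ s, d i) = ∏ i ∈ s, (f i).coeff (d i) := by
  classical
  induction s using Finset.induction_on with
  | empty => simp
  | insert a s has ih =>
    obtain ⟨h1, h2⟩ := ih fun i hi => h i (Finset.mem_insert_of_mem hi)
    have ha := h a (Finset.mem_insert_self _ _)
    rw [Finset.prod_insert has, Finset.sum_insert has, Finset.prod_insert has]
    exact ⟨(natDegree_mul_le).trans (add_le_add ha h1), by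
      rw [coeff_mul_add_eq_of_natDegree_le ha h1, h2]⟩

theorem zeroEst_pow_inj {K : Type*} [Field K] (κ : K) (hκ0 : κ ≠ 0)
    (hκ : ∀ m : ℕ, 0 < m → κ ^ m ≠ 1) {a b : ℕ} (h : κ ^ a = κ ^ b) : a = b := by
  wlog hab : a ≤ b generalizing a b
  · exact (this h.symm (le_of_not_ge hab)).symm
  by_contra hne
  have hlt : a < b := lt_of_le_of_ne hab hne
  apply hκ (b - a) (Nat.sub_pos_of_lt hlt)
  have h1 : κ ^ a * κ ^ (b - a) = κ ^ a * 1 := by
    rw [← pow_add, Nat.add_sub_cancel' hab, mul_one, h]
  exact mul_left_cancel₀ (pow_ne_zero _ hκ0) h1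

/-- the polynomial `sum c_m binom(X, m)` -/
noncomputable def zeroEstPoly {K : Type*} [Field K] (k : ℕ) (c : Fin k → K) : K[X] :=
  ∑ m : Fin k, C (c m / ((m : ℕ).factorial : K)) * descPochhammer K m

theorem zeroEstPoly_eval {K : Type*} [Field K] [CharZero K] (k : ℕ) (c : Fin k → K) (x : ℕ) :
    (zeroEstPoly k c).eval (x : K) = ∑ m : Fin k, c m * ((x.choose m : ℕ) : K) := by
  rw [zeroEstPoly, eval_finsetSum]
  refine Finset.sum_congr rfl fun m _ => ?_
  rw [eval_mul, eval_C, descPochhammer_eval_eq_descFactorial,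
    Nat.descFactorial_eq_factorial_mul_choose, Nat.cast_mul]
  have : ((m : ℕ).factorial : K) ≠ 0 := by exact_mod_cast Nat.factorial_ne_zero _
  field_simp

theorem zeroEstPoly_natDegree {K : Type*} [Field K] [CharZero K] (k : ℕ) (c : Fin k → K) :
    (zeroEstPoly k c).natDegree ≤ k - 1 := by
  refine natDegree_sum_le_of_forall_le _ _ fun m _ => ?_
  refine (natDegree_C_mul_le _ _).trans ?_
  rw [descPochhammer_natDegree]
  have := m.2
  omega

theorem zeroEstPoly_eq_zero {K : Type*} [Field K] [CharZero K] (k : ℕ) (c : Fin k → K)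
    (h : zeroEstPoly k c = 0) : c = 0 := by
  have h1 : ∀ x : ℕ, ∑ m : Fin k, c m * ((x.choose m : ℕ) : K) = 0 := by
    intro x
    rw [← zeroEstPoly_eval, h, eval_zero]
  have h2 : ∀ N : ℕ, ∀ m : Fin k, (m : ℕ) = N → c m = 0 := by
    intro N
    induction N using Nat.strong_induction_on with
    | _ N ih =>
      intro m hm
      have h3 := h1 m
      rw [Finset.sum_eq_single m] at h3
      · simpa using h3
      · intro b _ hb
        rcases lt_trichotomy (b : ℕ) (m : ℕ) with hlt | heq | hgt
        · rw [ih b (hm ▸ hlt) b rfl, zero_mul]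
        · exact absurd (Fin.ext heq) hb
        · rw [Nat.choose_eq_zero_of_lt hgt, Nat.cast_zero, mul_zero]
      · intro hmem
        exact absurd (Finset.mem_univ m) hmem
  funext m
  exact h2 m m rfl

/-- the determinant of the shifted polynomials is not zero -/
theorem zeroEst_det {K : Type*} [Field K] (κ : K) (hκ0 : κ ≠ 0)
    (hκ : ∀ m : ℕ, 0 < m → κ ^ m ≠ 1) (L : ℕ) (P : Fin L → K[X]) (hP : ∀ j, P j ≠ 0)
    (e : Fin L → ℕ) (he : Function.Injective e) :
    (Matrix.of fun i j : Fin L =>
      taylor (((i : ℕ) : K)) (P j) * C (κ ^ ((i : ℕ) * e j))).det ≠ 0 := by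
  intro h0
  have hdeg : ∀ (i j : Fin L),
      (taylor (((i : ℕ) : K)) (P j) * C (κ ^ ((i : ℕ) * e j))).natDegree ≤ (P j).natDegree := by
    intro i j
    refine (natDegree_mul_C_le _ _).trans ?_
    rw [natDegree_taylor]
  have h1 : (Matrix.of fun i j : Fin L =>
      taylor (((i : ℕ) : K)) (P j) * C (κ ^ ((i : ℕ) * e j))).det.coeff
        (∑ j, (P j).natDegree) =
      (Matrix.of fun i j : Fin L =>
        (P j).leadingCoeff * (κ ^ e j) ^ (i : ℕ)).det := by
    rw [Matrix.det_apply, Matrix.det_apply, finsetSum_coeff]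
    refine Finset.sum_congr rfl fun σ _ => ?_
    rw [coeff_smul]
    congr 1
    simp only [Matrix.of_apply]
    rw [(zeroEst_coeff_prod Finset.univ _ (fun j => (P j).natDegree)
      (fun j _ => hdeg (σ j) j)).2]
    refine Finset.prod_congr rfl fun j _ => ?_
    rw [coeff_mul_C, coeff_taylor_natDegree, ← pow_mul, mul_comm (e j)]
  have h2 : (Matrix.of fun i j : Fin L => (P j).leadingCoeff * (κ ^ e j) ^ (i : ℕ)).det =
      (∏ j, (P j).leadingCoeff) * (Matrix.vandermonde fun j => κ ^ e j).det := by
    rw [← Matrix.det_transpose (Matrix.vandermonde fun j => κ ^ e j),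
      ← Matrix.det_mul_row (fun j => (P j).leadingCoeff)]
    rfl
  rw [h0, coeff_zero, h2] at h1
  have h3 : (∏ j, (P j).leadingCoeff) ≠ 0 :=
    Finset.prod_ne_zero_iff.2 fun j _ => leadingCoeff_ne_zero.2 (hP j)
  have h4 : (Matrix.vandermonde fun j => κ ^ e j).det ≠ 0 := by
    rw [Matrix.det_vandermonde_ne_zero_iff]
    intro a b hab
    exact he (zeroEst_pow_inj κ hκ0 hκ hab)
  exact mul_ne_zero h3 h4 h1.symm

theorem exists_minor {K : Type*} [Field K] [CharZero K] (κ r : K) (hκ0 : κ ≠ 0)
    (hκ : ∀ m : ℕ, 0 < m → κ ^ m ≠ 1) (hr : r ≠ 0) (n L T S k : ℕ) (hS : S ≤ n)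
    (hL : 0 < L) (hk : 0 < k) (h : (k - 1) * L < S * T) :
    ∃ c : Fin k × Fin L → ℕ × ℕ, (∀ j, (c j).1 < S + L ∧ (c j).2 < T) ∧
      (Matrix.of fun i j : Fin k × Fin L =>
        ((((c j).1 + n * (c j).2).choose i.1 : ℕ) : K) * κ ^ ((i.2 : ℕ) * (c j).1) *
          r ^ ((i.2 : ℕ) * (c j).2)).det ≠ 0 := by
  classical
  obtain ⟨f, hf⟩ := zeroEst_minor (K := K) (I := Fin k × Fin L) (J := Fin (S + L) × Fin T)
    (fun i j => ((((j.1 : ℕ) + n * (j.2 : ℕ)).choose i.1 : ℕ) : K) *
      κ ^ ((i.2 : ℕ) * (j.1 : ℕ)) * r ^ ((i.2 : ℕ) * (j.2 : ℕ))) (by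
    intro c hc
    set P : Fin L → K[X] := fun l => zeroEstPoly k fun m => c (m, l) with hPdef
    -- the relation in terms of the polynomials
    have hrel : ∀ s t : ℕ, s < S + L → t < T →
        ∑ l : Fin L, (P l).eval (((s + n * t : ℕ) : K)) * κ ^ ((l : ℕ) * s) *
          r ^ ((l : ℕ) * t) = 0 := by
      intro s t hs ht
      have h1 := hc (⟨s, hs⟩, ⟨t, ht⟩)
      rw [Fintype.sum_prod_type_right] at h1
      rw [← h1]
      refine Finset.sum_congr rfl fun l _ => ?_
      rw [hPdef]
      simp only [zeroEstPoly_eval]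
      rw [Finset.sum_mul, Finset.sum_mul]
      refine Finset.sum_congr rfl fun m _ => ?_
      ring
    -- all the polynomials vanish
    have hall : ∀ l, P l = 0 := by
      by_contra hne
      push Not at hne
      set Λ : Finset (Fin L) := Finset.univ.filter fun l => P l ≠ 0 with hΛ
      have hΛne : Λ.Nonempty := by
        obtain ⟨l, hl⟩ := hne
        exact ⟨l, by simp [hΛ, hl]⟩
      set N : ℕ := Λ.card with hN
      have hNL : N ≤ L := by
        have := Finset.card_le_univ Λ
        rwa [Fintype.card_fin] at this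
      have hNpos : 0 < N := Finset.card_pos.2 hΛne
      let ε : Fin N ≃ Λ := (Λ.orderIsoOfFin rfl).toEquiv
      set Q : Fin N → K[X] := fun j => P (ε j : Fin L) with hQ
      set ex : Fin N → ℕ := fun j => ((ε j : Fin L) : ℕ) with hex
      have hQ0 : ∀ j, Q j ≠ 0 := by
        intro j
        exact (Finset.mem_filter.1 (ε j).2).2
      have hexinj : Function.Injective ex := by
        intro a b hab
        exact ε.injective (Subtype.ext (Fin.ext hab))
      have hD0 := zeroEst_det κ hκ0 hκ N Q hQ0 ex hexinj
      apply hD0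
      set D : K[X] := (Matrix.of fun i j : Fin N =>
        taylor (((i : ℕ) : K)) (Q j) * C (κ ^ ((i : ℕ) * ex j))).det with hD
      -- the points
      set pts : Finset K := ((Finset.range S ×ˢ Finset.range T).image
        fun p : ℕ × ℕ => ((p.1 + n * p.2 : ℕ) : K)) with hpts
      have hptscard : pts.card = S * T := by
        rw [hpts, Finset.card_image_of_injOn]
        · rw [Finset.card_product, Finset.card_range, Finset.card_range]
        · rintro ⟨a, b⟩ hab ⟨a', b'⟩ hab' heq
          simp only [Finset.coe_product, Finset.coe_range, Set.mem_prod, Set.mem_Iio] at hab hab'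
          simp only at heq
          have heq' : a + n * b = a' + n * b' := by exact_mod_cast heq
          have ha : a < n := lt_of_lt_of_le hab.1 hS
          have ha' : a' < n := lt_of_lt_of_le hab'.1 hS
          have e1 : a = a' := by
            have := congrArg (· % n) heq'
            simp only [Nat.add_mul_mod_self_left] at this
            rwa [Nat.mod_eq_of_lt ha, Nat.mod_eq_of_lt ha'] at this
          subst e1
          have e2 : n * b = n * b' := by omega
          have hn : 0 < n := by omega
          exact Prod.ext rfl (Nat.eq_of_mul_eq_mul_left hn e2)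
      have hdegD : D.natDegree < pts.card := by
        rw [hptscard]
        refine lt_of_le_of_lt ?_ h
        rw [hD, Matrix.det_apply]
        refine natDegree_sum_le_of_forall_le _ _ fun σ _ => ?_
        refine (natDegree_smul_le _ _).trans ?_
        simp only [Matrix.of_apply]
        have h5 := (zeroEst_coeff_prod Finset.univ
          (fun j : Fin N => taylor (((σ j : ℕ) : K)) (Q j) * C (κ ^ ((σ j : ℕ) * ex j)))
          (fun _ => k - 1) (by
            intro j _
            refine (natDegree_mul_C_le _ _).trans ?_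
            rw [natDegree_taylor]
            exact zeroEstPoly_natDegree _ _)).1
        refine h5.trans ?_
        rw [Finset.sum_const, Finset.card_univ, Fintype.card_fin, smul_eq_mul, mul_comm]
        exact Nat.mul_le_mul_left _ hNL
      refine eq_zero_of_natDegree_lt_card_of_eval_eq_zero' D pts ?_ hdegD
      intro x hx
      rw [hpts, Finset.mem_image] at hx
      obtain ⟨⟨s, t⟩, hst, rfl⟩ := hx
      rw [Finset.mem_product, Finset.mem_range, Finset.mem_range] at hst
      obtain ⟨hs, ht⟩ := hst
      simp only at hs ht ⊢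
      rw [hD, ← Polynomial.coe_evalRingHom, RingHom.map_det]
      rw [← Matrix.exists_mulVec_eq_zero_iff]
      refine ⟨fun j => κ ^ (ex j * s) * r ^ (ex j * t), ?_, ?_⟩
      · intro h0
        have := congrFun h0 ⟨0, hNpos⟩
        simp only [Pi.zero_apply] at this
        exact mul_ne_zero (pow_ne_zero _ hκ0) (pow_ne_zero _ hr) this
      · funext i
        rw [Matrix.mulVec, Pi.zero_apply, dotProduct]
        have hi : s + (i : ℕ) < S + L := by
          have := i.2
          omega
        have h6 := hrel (s + i) t hi ht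
        have h7 : ∑ l ∈ Λ, (P l).eval (((s + (i : ℕ) + n * t : ℕ) : K)) *
            κ ^ ((l : ℕ) * (s + (i : ℕ))) * r ^ ((l : ℕ) * t) = 0 := by
          rw [← h6]
          refine Finset.sum_subset (Finset.subset_univ _) fun l _ hl => ?_
          have : P l = 0 := by
            by_contra hne'
            exact hl (by simp [hΛ, hne'])
          rw [this, eval_zero, zero_mul, zero_mul]
        rw [← h7, ← Finset.sum_coe_sort Λ, ← Equiv.sum_comp ε]
        refine Finset.sum_congr rfl fun j _ => ?_
        simp only [RingHom.mapMatrix_apply, Matrix.map_apply, Matrix.of_apply,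
          Polynomial.coe_evalRingHom, eval_mul, eval_C, taylor_eval]
        have e1 : ((s + n * t : ℕ) : K) + ((i : ℕ) : K) = ((s + (i : ℕ) + n * t : ℕ) : K) := by
          push_cast
          ring
        rw [e1]
        rw [hQ, hex]
        simp only
        ring
    funext ⟨m, l⟩
    exact congrFun (zeroEstPoly_eq_zero k _ (hall l)) m)
  refine ⟨fun i => ((f i).1, (f i).2), fun j => ⟨(f j).1.2, (f j).2.2⟩, hf⟩

end Pool.Agent.Work.MP_8d13b5_lc.Rk
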