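import Pool.Agent.Work.MP_8d13b5_lc.Bd.B01

set_option autoImplicit false

namespace Pool.Agent.Work.MP_8d13b5_lc.Rk

open Height AdmissibleAbsValues Polynomial Finset

/-! ### Taylor coefficients -/

theorem pow_dvd_iff_taylor {K : Type*} [Field K] (x : K) (m : ℕ) (F : K[X]) :
    (X - C x) ^ m ∣ F ↔ ∀ k < m, (taylor x F).coeff k = 0 := by
  rw [X_sub_C_pow_dvd_iff, X_pow_dvd_iff, taylor_apply]

theorem taylor_coeff_X_pow {K : Type*} [Field K] (x : K) (j k : ℕ) :
    (taylor x (X ^ j : K[X])).coeff k = x ^ (j - k) * (j.choose k : K) := by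
  rw [taylor_X_pow, coeff_X_add_C_pow]

/-- the index set of the confluent Vandermonde matrix -/
abbrev Ix {K : Type*} [Field K] [DecidableEq K] (f : K[X]) : Type _ :=
  Σ x : {x : K // x ∈ f.roots.toFinset}, Fin (f.roots.count x.1)

theorem card_Ix {K : Type*} [Field K] [DecidableEq K] (f : K[X]) (hs : f.Splits) :
    Fintype.card (Ix f) = f.natDegree := by
  rw [Fintype.card_sigma]
  simp only [Fintype.card_fin]
  rw [Finset.sum_coe_sort f.roots.toFinset (fun x => f.roots.count x),
    Multiset.toFinset_sum_count_eq, hs.natDegree_eq_card_roots]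

theorem dvd_of_taylor {K : Type*} [Field K] [DecidableEq K] (f : K[X]) (hs : f.Splits)
    (hf : f ≠ 0) (F : K[X])
    (h : ∀ i : Ix f, (taylor i.1.1 F).coeff i.2 = 0) : f ∣ F := by
  by_cases hF : F = 0
  · rw [hF]; exact dvd_zero f
  refine hs.dvd_of_roots_le_roots hf (Multiset.le_iff_count.2 fun x => ?_)
  by_cases hx : x ∈ f.roots
  · rw [count_roots F, le_rootMultiplicity_iff hF, pow_dvd_iff_taylor]
    intro k hk
    exact h ⟨⟨x, Multiset.mem_toFinset.2 hx⟩, ⟨k, hk⟩⟩
  · rw [Multiset.count_eq_zero_of_notMem hx]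
    exact Nat.zero_le _

/-- the confluent Vandermonde matrix -/
noncomputable def cVan {K : Type*} [Field K] [DecidableEq K] (f : K[X])
    (e : Ix f ≃ Fin f.natDegree) : Matrix (Ix f) (Ix f) K :=
  Matrix.of fun i j => (taylor i.1.1 (X ^ (e j : ℕ) : K[X])).coeff i.2

theorem cVan_det {K : Type*} [Field K] [DecidableEq K] (f : K[X]) (hs : f.Splits) (hf : f ≠ 0)
    (e : Ix f ≃ Fin f.natDegree) : (cVan f e).det ≠ 0 := by
  intro h0
  obtain ⟨w, hw, hVw⟩ := Matrix.exists_mulVec_eq_zero_iff.2 h0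
  set F : K[X] := ∑ j : Ix f, C (w j) * X ^ (e j : ℕ) with hF
  have hcoef : ∀ i : Ix f, (taylor i.1.1 F).coeff i.2 = 0 := by
    intro i
    have := congrFun hVw i
    rw [Matrix.mulVec, dotProduct] at this
    rw [hF, map_sum, finsetSum_coeff]
    rw [Pi.zero_apply] at this
    rw [← this]
    refine Finset.sum_congr rfl fun j _ => ?_
    rw [cVan, Matrix.of_apply, ← smul_eq_C_mul, map_smul, coeff_smul, smul_eq_mul, mul_comm]
  have hdvd := dvd_of_taylor f hs hf F hcoef
  have hdeg : F.degree < f.degree := by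
    rw [degree_eq_natDegree hf]
    refine (degree_sum_le _ _).trans_lt ?_
    rw [Finset.sup_lt_iff (WithBot.bot_lt_coe _)]
    intro j _
    refine (degree_C_mul_X_pow_le _ _).trans_lt ?_
    exact_mod_cast (e j).2
  have hF0 : F = 0 := eq_zero_of_dvd_of_degree_lt hdvd hdeg
  apply hw
  funext j
  have hc : F.coeff (e j) = w j := by
    rw [hF, finsetSum_coeff, Finset.sum_eq_single j]
    · rw [coeff_C_mul, coeff_X_pow, if_pos rfl, mul_one]
    · intro i _ hij
      rw [coeff_C_mul, coeff_X_pow, if_neg, mul_zero]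
      intro hh
      exact hij (e.injective (Fin.ext hh.symm))
    · intro hj; exact absurd (Finset.mem_univ _) hj
  rw [← hc, hF0]; simp

theorem interp {K : Type*} [Field K] [DecidableEq K] (f : K[X]) (hs : f.Splits) (hf : f ≠ 0)
    (e : Ix f ≃ Fin f.natDegree) (b : ℕ → K) :
    ∃ c : Ix f → K,
      (∀ i, c i = ((cVan f e).transpose.det)⁻¹ *
        ((cVan f e).transpose.updateCol i (fun j => b (e j))).det) ∧
      ∀ j < f.natDegree, ∑ i, c i * (taylor i.1.1 (X ^ j : K[X])).coeff i.2 = b j := by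
  refine ⟨_, fun i => rfl, fun j hj => ?_⟩
  have h := Matrix.mulVec_cramer (cVan f e).transpose (fun j => b (e j))
  have hd : (cVan f e).transpose.det ≠ 0 := by rw [Matrix.det_transpose]; exact cVan_det f hs hf e
  have h2 := congrFun h (e.symm ⟨j, hj⟩)
  rw [Matrix.mulVec, dotProduct, Pi.smul_apply, smul_eq_mul] at h2
  simp only [Equiv.apply_symm_apply] at h2
  have h3 : b j = ((cVan f e).transpose.det)⁻¹ * ((cVan f e).transpose.det * b j) := by
    rw [inv_mul_cancel_left₀ hd]
  rw [h3, ← h2, Finset.mul_sum]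
  refine Finset.sum_congr rfl fun i _ => ?_
  rw [Matrix.cramer_apply, Matrix.transpose_apply, cVan, Matrix.of_apply]
  simp only [Equiv.apply_symm_apply]
  ring


/-! ### functionals -/

/-- combination of Taylor coefficients -/
noncomputable def tf {K : Type*} [Field K] (T : Finset K) (m : K → ℕ) (c : K → ℕ → K) :
    K[X] →ₗ[K] K :=
  ∑ x ∈ T, ∑ k ∈ range (m x), c x k • (lcoeff K k ∘ₗ taylor x)

theorem tf_apply {K : Type*} [Field K] (T : Finset K) (m : K → ℕ) (c : K → ℕ → K) (F : K[X]) :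
    tf T m c F = ∑ x ∈ T, ∑ k ∈ range (m x), c x k * (taylor x F).coeff k := by
  simp [tf, LinearMap.sum_apply]

theorem tf_kill {K : Type*} [Field K] (T : Finset K) (m : K → ℕ) (c : K → ℕ → K) (F : K[X])
    (h : ∀ x ∈ T, (X - C x) ^ m x ∣ F) : tf T m c F = 0 := by
  rw [tf_apply]
  refine Finset.sum_eq_zero fun x hx => Finset.sum_eq_zero fun k hk => ?_
  rw [(pow_dvd_iff_taylor x (m x) F).1 (h x hx) k (Finset.mem_range.1 hk), mul_zero]

theorem lin_mul_X_pow {K : Type*} [Field K] (L : K[X] →ₗ[K] K) (u : ℕ → K)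
    (hu : ∀ n, L (X ^ n) = u n) (P : K[X]) (n : ℕ) :
    L (P * X ^ n) = ∑ i ∈ range (P.natDegree + 1), P.coeff i * u (n + i) := by
  conv_lhs => rw [P.as_sum_range_C_mul_X_pow]
  rw [Finset.sum_mul, map_sum]
  refine Finset.sum_congr rfl fun i _ => ?_
  rw [mul_assoc, ← pow_add, ← smul_eq_C_mul, map_smul, hu, smul_eq_mul, add_comm i n]

theorem lin_mul {K : Type*} [Field K] (L : K[X] →ₗ[K] K) (P : K[X])
    (h : ∀ n, L (P * X ^ n) = 0) (G : K[X]) : L (P * G) = 0 := by
  rw [G.as_sum_range_C_mul_X_pow, Finset.mul_sum, map_sum]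
  refine Finset.sum_eq_zero fun i _ => ?_
  rw [mul_left_comm, ← smul_eq_C_mul, map_smul, h, smul_zero]

theorem annih_cast {K : Type*} [Field K] [CharZero K] (P : ℤ[X]) (u : ℕ → ℤ) (h : Annih P u)
    (n : ℕ) : ∑ i ∈ range ((P.map (algebraMap ℤ K)).natDegree + 1),
      (P.map (algebraMap ℤ K)).coeff i * (u (n + i) : K) = 0 := by
  rw [natDegree_map_eq_of_injective (algebraMap ℤ K).injective_int]
  have := congrArg (Int.cast : ℤ → K) (h n)
  push_cast at this
  rw [← this]
  refine Finset.sum_congr rfl fun i _ => ?_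
  rw [coeff_map]; simp

/-- a functional killing the multiples of the characteristic polynomial represents `u` -/
theorem lin_rep {K : Type*} [Field K] [CharZero K] (L : K[X] →ₗ[K] K) (χ : ℤ[X]) (hχ : χ.Monic)
    (u : ℕ → ℤ) (hu : Annih χ u) (h0 : ∀ j < χ.natDegree, L (X ^ j) = (u j : K))
    (hk : ∀ n, L (χ.map (algebraMap ℤ K) * X ^ n) = 0) (n : ℕ) : L (X ^ n) = (u n : K) := by
  induction n using Nat.strong_induction_on with
  | _ n ih =>
    rcases lt_or_ge n χ.natDegree with hn | hn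
    · exact h0 n hn
    · obtain ⟨m, rfl⟩ := Nat.exists_eq_add_of_le' hn
      have h1 := lin_mul_X_pow L (fun j => L (X ^ j)) (fun _ => rfl) (χ.map (algebraMap ℤ K)) m
      have h2 := annih_cast (K := K) χ u hu m
      rw [hk, Finset.sum_range_succ] at h1
      rw [Finset.sum_range_succ] at h2
      have hd : (χ.map (algebraMap ℤ K)).natDegree = χ.natDegree :=
        natDegree_map_eq_of_injective (algebraMap ℤ K).injective_int _
      have hlead : (χ.map (algebraMap ℤ K)).coeff (χ.map (algebraMap ℤ K)).natDegree = 1 :=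
        (hχ.map (algebraMap ℤ K)).coeff_natDegree
      rw [hlead, one_mul, hd] at h1 h2
      have h3 : ∑ i ∈ range χ.natDegree, (χ.map (algebraMap ℤ K)).coeff i * L (X ^ (m + i)) =
          ∑ i ∈ range χ.natDegree, (χ.map (algebraMap ℤ K)).coeff i * (u (m + i) : K) := by
        refine Finset.sum_congr rfl fun i hi => ?_
        rw [ih (m + i) (by have := Finset.mem_range.1 hi; omega)]
      rw [h3] at h1
      linear_combination -h1 - h2

/-- if a coefficient at `x` is nonzero then `x` is a characteristic root -/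
theorem charRoot_of_coeff {K : Type*} [Field K] [CharZero K] [DecidableEq K] (T : Finset K)
    (m : K → ℕ) (c : K → ℕ → K) (u : ℕ → ℤ) (hL : ∀ n, tf T m c (X ^ n) = (u n : K)) (x : K)
    (hx : x ∈ T) (k : ℕ) (hk : k < m x) (hck : c x k ≠ 0) : IsCharRoot u x := by
  intro P hP
  by_contra hne
  -- the largest index
  set A : Finset ℕ := (range (m x)).filter fun k => c x k ≠ 0 with hA
  have hAne : A.Nonempty := ⟨k, by rw [hA, Finset.mem_filter, Finset.mem_range]; exact ⟨hk, hck⟩⟩
  set k₀ := A.max' hAne with hk₀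
  have hk₀A : k₀ ∈ A := A.max'_mem hAne
  rw [hA, Finset.mem_filter, Finset.mem_range] at hk₀A
  obtain ⟨hk₀m, hck₀⟩ := hk₀A
  have hmax : ∀ j, j < m x → k₀ < j → c x j = 0 := by
    intro j hj hlt
    by_contra hcj
    have : j ∈ A := by rw [hA, Finset.mem_filter, Finset.mem_range]; exact ⟨hj, hcj⟩
    exact absurd (A.le_max' j this) (not_le.2 hlt)
  set PK : K[X] := P.map (algebraMap ℤ K) with hPK
  set H : K[X] := ∏ y ∈ T.erase x, (X - C y) ^ m y with hH
  have hz : tf T m c (PK * ((X - C x) ^ k₀ * H)) = 0 := by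
    refine lin_mul _ _ (fun n => ?_) _
    rw [lin_mul_X_pow _ _ hL]
    exact annih_cast P u hP n
  rw [tf_apply, ← Finset.add_sum_erase T _ hx] at hz
  have h1 : ∑ y ∈ T.erase x, ∑ k ∈ range (m y),
      c y k * (taylor y (PK * ((X - C x) ^ k₀ * H))).coeff k = 0 := by
    refine Finset.sum_eq_zero fun y hy => Finset.sum_eq_zero fun j hj => ?_
    have : (X - C y) ^ m y ∣ PK * ((X - C x) ^ k₀ * H) :=
      ((Finset.dvd_prod_of_mem (fun y => (X - C y) ^ m y) hy).mul_left _).mul_left _
    rw [(pow_dvd_iff_taylor y (m y) _).1 this j (Finset.mem_range.1 hj), mul_zero]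
  rw [h1, add_zero, Finset.sum_eq_single_of_mem k₀ (Finset.mem_range.2 hk₀m)] at hz
  · have h2 : (taylor x (PK * ((X - C x) ^ k₀ * H))).coeff k₀ = (PK * H).eval x := by
      have : PK * ((X - C x) ^ k₀ * H) = (X - C x) ^ k₀ * (PK * H) := by ring
      rw [this, taylor_mul, taylor_pow, map_sub, taylor_X, taylor_C, add_sub_cancel_right,
        coeff_X_pow_mul', if_pos le_rfl, Nat.sub_self, taylor_coeff_zero]
    rw [h2, eval_mul] at hz
    rcases mul_eq_zero.1 hz with h | h
    · exact hck₀ h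
    · rcases mul_eq_zero.1 h with h | h
      · apply hne
        rw [aeval_def, ← eval_map]; exact h
      · rw [hH, eval_prod, Finset.prod_eq_zero_iff] at h
        obtain ⟨y, hy, hy0⟩ := h
        rw [eval_pow, eval_sub, eval_X, eval_C] at hy0
        by_contra
        exact pow_ne_zero _ (sub_ne_zero.2 fun h => (Finset.mem_erase.1 hy).1 h.symm) hy0
  · intro j hj hne'
    rcases lt_or_gt_of_ne hne' with hlt | hgt
    · have : (X - C x) ^ k₀ ∣ PK * ((X - C x) ^ k₀ * H) := (Dvd.intro _ rfl).mul_left _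
      rw [(pow_dvd_iff_taylor x k₀ _).1 this j hlt, mul_zero]
    · rw [hmax j (Finset.mem_range.1 hj) hgt, zero_mul]

theorem annih_sum_range (P : ℤ[X]) (u : ℕ → ℤ) (D : ℕ) (hD : P.natDegree ≤ D) (n : ℕ) :
    ∑ i ∈ range (P.natDegree + 1), P.coeff i * u (n + i) =
      ∑ i ∈ range (D + 1), P.coeff i * u (n + i) := by
  refine Finset.sum_subset (Finset.range_subset_range.2 (by omega)) fun i _ hi => ?_
  rw [coeff_eq_zero_of_natDegree_lt (by rw [Finset.mem_range] at hi; omega), zero_mul]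

/-- descent of an annihilating polynomial to the integers -/
theorem descend {K : Type*} [Field K] [NumberField K] (u : ℕ → ℤ) (F : K[X]) (x : K)
    (hx : F.eval x ≠ 0)
    (hF : ∀ n, ∑ i ∈ range (F.natDegree + 1), F.coeff i * (u (n + i) : K) = 0) :
    ∃ P : ℤ[X], Annih P u ∧ aeval x P ≠ 0 := by
  set b := Module.finBasis ℚ K with hb
  have hex : ∃ j, ∑ i ∈ range (F.natDegree + 1), (algebraMap ℚ K (b.repr (F.coeff i) j)) * x ^ i
      ≠ 0 := by
    by_contra hall
    push Not at hall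
    apply hx
    rw [eval_eq_sum_range]
    have h1 : ∀ i, F.coeff i = ∑ j, algebraMap ℚ K (b.repr (F.coeff i) j) * b j := by
      intro i
      conv_lhs => rw [← b.sum_repr (F.coeff i)]
      refine Finset.sum_congr rfl fun j _ => ?_
      rw [Algebra.smul_def]
    calc ∑ i ∈ range (F.natDegree + 1), F.coeff i * x ^ i
        = ∑ i ∈ range (F.natDegree + 1), ∑ j,
            algebraMap ℚ K (b.repr (F.coeff i) j) * x ^ i * b j := by
          refine Finset.sum_congr rfl fun i _ => ?_
          conv_lhs => rw [h1 i]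
          rw [Finset.sum_mul]
          refine Finset.sum_congr rfl fun j _ => ?_
          ring
      _ = ∑ j, (∑ i ∈ range (F.natDegree + 1),
            algebraMap ℚ K (b.repr (F.coeff i) j) * x ^ i) * b j := by
          rw [Finset.sum_comm]
          refine Finset.sum_congr rfl fun j _ => ?_
          rw [Finset.sum_mul]
      _ = 0 := by
          refine Finset.sum_eq_zero fun j _ => ?_
          rw [hall j, zero_mul]
  obtain ⟨j, hj⟩ := hex
  obtain ⟨N, hN⟩ := IsLocalization.exist_integer_multiples_of_finset (nonZeroDivisors ℤ)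
    ((range (F.natDegree + 1)).image fun i => b.repr (F.coeff i) j)
  have hN' : ∀ i ∈ range (F.natDegree + 1), ∃ z : ℤ, (z : ℚ) = ((N : ℤ) : ℚ) *
      b.repr (F.coeff i) j := by
    intro i hi
    obtain ⟨z, hz⟩ := hN _ (Finset.mem_image_of_mem _ hi)
    refine ⟨z, ?_⟩
    rw [eq_intCast] at hz
    rw [hz, zsmul_eq_mul]
  choose! z hz using hN'
  have hN0 : ((N : ℤ) : ℚ) ≠ 0 := by exact_mod_cast nonZeroDivisors.ne_zero N.2
  set P : ℤ[X] := ∑ i ∈ range (F.natDegree + 1), C (z i) * X ^ i with hP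
  have hPc : ∀ i ∈ range (F.natDegree + 1), P.coeff i = z i := by
    intro i hi
    rw [hP, finsetSum_coeff, Finset.sum_eq_single_of_mem i hi]
    · rw [coeff_C_mul, coeff_X_pow, if_pos rfl, mul_one]
    · intro k _ hk
      rw [coeff_C_mul, coeff_X_pow, if_neg (Ne.symm hk), mul_zero]
  have hPd : P.natDegree ≤ F.natDegree := by
    rw [hP]
    refine natDegree_sum_le_of_forall_le _ _ fun i hi => ?_
    exact (natDegree_C_mul_X_pow_le _ _).trans (by have := Finset.mem_range.1 hi; omega)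
  refine ⟨P, fun n => ?_, ?_⟩
  · rw [annih_sum_range P u F.natDegree hPd n]
    have h1 : ∑ i ∈ range (F.natDegree + 1), b.repr (F.coeff i) j * (u (n + i) : ℚ) = 0 := by
      have h2 := congrArg (fun y => b.repr y j) (hF n)
      simp only [map_zero, Finsupp.coe_zero, Pi.zero_apply, map_sum, Finsupp.finsetSum_apply] at h2
      rw [← h2]
      refine Finset.sum_congr rfl fun i _ => ?_
      have h3 : F.coeff i * (u (n + i) : K) = (u (n + i) : ℚ) • F.coeff i := by
        rw [Algebra.smul_def]; simp [mul_comm]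
      rw [h3, map_smul, Finsupp.smul_apply, smul_eq_mul, mul_comm]
    have h4 : ((∑ i ∈ range (F.natDegree + 1), P.coeff i * u (n + i) : ℤ) : ℚ) = 0 := by
      push_cast
      calc ∑ i ∈ range (F.natDegree + 1), (P.coeff i : ℚ) * (u (n + i) : ℚ)
          = ∑ i ∈ range (F.natDegree + 1),
              ((N : ℤ) : ℚ) * (b.repr (F.coeff i) j * (u (n + i) : ℚ)) := by
            refine Finset.sum_congr rfl fun i hi => ?_
            rw [hPc i hi, hz i hi]; ring
        _ = 0 := by rw [← Finset.mul_sum, h1, mul_zero]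
    exact_mod_cast h4
  · rw [hP, map_sum]
    have h5 : ∑ i ∈ range (F.natDegree + 1), (aeval x) (C (z i) * X ^ i : ℤ[X]) =
        algebraMap ℚ K ((N : ℤ) : ℚ) * ∑ i ∈ range (F.natDegree + 1),
          (algebraMap ℚ K (b.repr (F.coeff i) j)) * x ^ i := by
      rw [Finset.mul_sum]
      refine Finset.sum_congr rfl fun i hi => ?_
      have h6 := congrArg (algebraMap ℚ K) (hz i hi)
      rw [map_mul] at h6
      rw [map_mul, aeval_C, map_pow, aeval_X, ← mul_assoc, ← h6]
      simp
    rw [h5]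
    exact mul_ne_zero (by rw [Ne, map_eq_zero]; exact hN0) hj


/-! ### heights -/

theorem height_int_le {K : Type*} [Field K] [AdmissibleAbsValues K] (c : ℤ) (N s : ℕ)
    (hN : 1 ≤ N) (hc : |c| ≤ N) (hW : totalWeight K ≤ s) : mulHeight₁ (c : K) ≤ (N : ℝ) ^ s := by
  have h1 : (1 : ℝ) ≤ N := by exact_mod_cast hN
  have h2 : |(c : ℝ)| ≤ N := by exact_mod_cast hc
  calc mulHeight₁ (c : K) ≤ (max 1 |(c : ℝ)|) ^ totalWeight K := height_intCast c
    _ ≤ (N : ℝ) ^ totalWeight K := pow_le_pow_left₀ (by positivity) (max_le h1 h2) _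
    _ ≤ (N : ℝ) ^ s := pow_le_pow_right₀ h1 hW

theorem height_det_le {K : Type*} [Field K] [AdmissibleAbsValues K] {ι : Type*} [Fintype ι]
    [DecidableEq ι] (A : Matrix ι ι K) (h : ℝ) (h1 : 1 ≤ h) (hA : ∀ i j, mulHeight₁ (A i j) ≤ h)
    (s : ℕ) (hW : totalWeight K ≤ s) (hc : Fintype.card ι ≤ s) :
    mulHeight₁ A.det ≤ (s.factorial : ℝ) ^ s * (h ^ s) ^ s.factorial := by
  have hfac : Fintype.card (Equiv.Perm ι) ≤ s.factorial := by
    rw [Fintype.card_perm]; exact Nat.factorial_le hc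
  have hf1 : (1 : ℝ) ≤ s.factorial := by exact_mod_cast s.factorial_pos
  rw [Matrix.det_apply]
  refine (mulHeight₁_sum_le Finset.univ_nonempty _).trans ?_
  have hterm : ∀ σ : Equiv.Perm ι, mulHeight₁ (Equiv.Perm.sign σ • ∏ i, A (σ i) i) ≤ h ^ s := by
    intro σ
    have h2 : mulHeight₁ (Equiv.Perm.sign σ • ∏ i, A (σ i) i) = mulHeight₁ (∏ i, A (σ i) i) := by
      rcases Int.units_eq_one_or (Equiv.Perm.sign σ) with h | h
      · rw [h, one_smul]
      · rw [h, Units.neg_smul, one_smul, mulHeight₁_neg]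
    rw [h2]
    refine (mulHeight₁_prod_le _ _).trans ?_
    calc ∏ i, mulHeight₁ (A (σ i) i) ≤ ∏ _i : ι, h :=
          Finset.prod_le_prod (fun i _ => mulHeight₁_nonneg _) fun i _ => hA _ _
      _ = h ^ Fintype.card ι := by rw [Finset.prod_const, Finset.card_univ]
      _ ≤ h ^ s := pow_le_pow_right₀ h1 hc
  refine mul_le_mul ?_ ?_ (Finset.prod_nonneg fun _ _ => mulHeight₁_nonneg _) (by positivity)
  · rw [Finset.card_univ]
    calc ((Fintype.card (Equiv.Perm ι) : ℕ) : ℝ) ^ totalWeight K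
        ≤ (s.factorial : ℝ) ^ totalWeight K :=
          pow_le_pow_left₀ (by positivity) (by exact_mod_cast hfac) _
      _ ≤ (s.factorial : ℝ) ^ s := pow_le_pow_right₀ hf1 hW
  · calc ∏ σ : Equiv.Perm ι, mulHeight₁ (Equiv.Perm.sign σ • ∏ i, A (σ i) i)
        ≤ ∏ _σ : Equiv.Perm ι, h ^ s :=
          Finset.prod_le_prod (fun i _ => mulHeight₁_nonneg _) fun i _ => hterm i
      _ = (h ^ s) ^ Fintype.card (Equiv.Perm ι) := by rw [Finset.prod_const, Finset.card_univ]
      _ ≤ (h ^ s) ^ s.factorial := pow_le_pow_right₀ (one_le_pow₀ h1) hfac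

theorem descPoch_coeff (k i : ℕ) : |(descPochhammer ℤ k).coeff i| ≤ (k.factorial : ℤ) := by
  induction k generalizing i with
  | zero =>
    rw [descPochhammer_zero, coeff_one]
    split_ifs <;> simp
  | succ k ih =>
    rw [descPochhammer_succ_right, mul_sub, coeff_sub, coeff_mul_natCast]
    have h2 : |(descPochhammer ℤ k).coeff i * (k : ℤ)| ≤ (k.factorial : ℤ) * k := by
      rw [abs_mul, Nat.abs_cast]
      exact mul_le_mul_of_nonneg_right (ih i) (by positivity)
    have h1 : |(descPochhammer ℤ k * X).coeff i| ≤ (k.factorial : ℤ) := by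
      rcases i with _ | i
      · rw [coeff_mul_X_zero]; simp
      · rw [coeff_mul_X]; exact ih i
    calc |(descPochhammer ℤ k * X).coeff i - (descPochhammer ℤ k).coeff i * (k : ℤ)|
        ≤ |(descPochhammer ℤ k * X).coeff i| + |(descPochhammer ℤ k).coeff i * (k : ℤ)| :=
          abs_sub _ _
      _ ≤ (k.factorial : ℤ) + k.factorial * k := add_le_add h1 h2
      _ = ((k + 1).factorial : ℕ) := by rw [Nat.factorial_succ]; push_cast; ring

theorem descPoch_height {K : Type*} [Field K] [AdmissibleAbsValues K] (k i s : ℕ) (hk : k ≤ s)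
    (hW : totalWeight K ≤ s) :
    mulHeight₁ ((descPochhammer K k).coeff i) ≤ (s.factorial : ℝ) ^ s := by
  rw [← descPochhammer_map (Int.castRingHom K) k, coeff_map, eq_intCast]
  refine height_int_le _ _ s s.factorial_pos ((descPoch_coeff k i).trans ?_) hW
  exact_mod_cast Nat.factorial_le hk

/-- bound for the roots -/
def eb1 (s : ℕ) : ℕ := (s + 1) ^ s * ((s + 1) ^ s) ^ (s + 1)

/-- bound for the entries of the matrix -/
def eb2 (s : ℕ) : ℕ := (2 ^ s) ^ s * eb1 s ^ (s + 1)

/-- bound for the determinants -/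
def eb3 (s : ℕ) : ℕ := s.factorial ^ s * (eb2 s ^ s) ^ s.factorial

/-- bound for the terms of the coefficients -/
def eb4 (s : ℕ) : ℕ :=
  eb3 s * eb3 s * eb1 s ^ s * s.factorial ^ s * s.factorial ^ s

/-- final bound -/
def eb (s : ℕ) : ℕ := (s + 1) ^ s * eb4 s ^ s

theorem elem_succ : Elem fun s => s + 1 := Elem.id.add (Elem.const 1)

theorem elem_eb1 : Elem eb1 :=
  (elem_succ.pow Elem.id).mul ((elem_succ.pow Elem.id).pow elem_succ)

theorem elem_eb2 : Elem eb2 :=
  (((Elem.const 2).pow Elem.id).pow Elem.id).mul (elem_eb1.pow elem_succ)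

theorem elem_eb3 : Elem eb3 :=
  ((Elem.id.factorial).pow Elem.id).mul ((elem_eb2.pow Elem.id).pow Elem.id.factorial)

theorem elem_eb4 : Elem eb4 :=
  (((elem_eb3.mul elem_eb3).mul (elem_eb1.pow Elem.id)).mul (Elem.id.factorial.pow Elem.id)).mul
    (Elem.id.factorial.pow Elem.id)

theorem elem_eb : Elem eb := (elem_succ.pow Elem.id).mul (elem_eb4.pow Elem.id)

theorem eb1_pos (s : ℕ) : 1 ≤ eb1 s := Nat.succ_le_iff.2 (by unfold eb1; positivity)

theorem eb2_pos (s : ℕ) : 1 ≤ eb2 s :=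
  Nat.succ_le_iff.2 (by have := eb1_pos s; unfold eb2; positivity)

theorem eb3_pos (s : ℕ) : 1 ≤ eb3 s :=
  Nat.succ_le_iff.2 (by have := eb2_pos s; unfold eb3; positivity)

theorem eb4_pos (s : ℕ) : 1 ≤ eb4 s :=
  Nat.succ_le_iff.2 (by have := eb3_pos s; have := eb1_pos s; unfold eb4; positivity)

theorem eb_pos (s : ℕ) : 1 ≤ eb s :=
  Nat.succ_le_iff.2 (by have := eb4_pos s; unfold eb; positivity)

/-- height of the roots of a monic integer polynomial -/
theorem root_height {K : Type*} [Field K] [CharZero K] [AdmissibleAbsValues K] (s : ℕ)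
    (hW : totalWeight K ≤ s) (χ : ℤ[X]) (hχ : χ.Monic) (hd : χ.natDegree ≤ s)
    (hc : ∀ i, |χ.coeff i| ≤ s) (x : K) (hx : (χ.map (algebraMap ℤ K)).IsRoot x) :
    mulHeight₁ x ≤ eb1 s := by
  have hf : χ.map (algebraMap ℤ K) ≠ 0 := (hχ.map _).ne_zero
  have hdeg : (χ.map (algebraMap ℤ K)).natDegree = χ.natDegree :=
    natDegree_map_eq_of_injective (algebraMap ℤ K).injective_int _
  have hA : ∀ i, mulHeight₁ ((χ.map (algebraMap ℤ K)).coeff i) ≤ ((s : ℝ) + 1) ^ s := by
    intro i
    rw [coeff_map, eq_intCast]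
    have := height_int_le (K := K) (χ.coeff i) (s + 1) s (by omega)
      ((hc i).trans (by push_cast; omega)) hW
    exact_mod_cast this
  refine (height_root _ hf x hx _ hA).trans ?_
  rw [hdeg, eb1]
  push_cast
  have h1 : (1 : ℝ) ≤ (s : ℝ) + 1 := by linarith [(Nat.cast_nonneg s : (0 : ℝ) ≤ s)]
  have h2 : ((χ.natDegree : ℝ) + 1) ≤ (s : ℝ) + 1 := by
    have : (χ.natDegree : ℝ) ≤ s := by exact_mod_cast hd
    linarith
  refine mul_le_mul ?_ ?_ (by positivity) (by positivity)
  · exact (pow_le_pow_left₀ (by positivity) h2 _).trans (pow_le_pow_right₀ h1 hW)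
  · exact pow_le_pow_right₀ (one_le_pow₀ h1) (by omega)

theorem entry_height {K : Type*} [Field K] [AdmissibleAbsValues K] (s : ℕ)
    (hW : totalWeight K ≤ s) (x : K) (hx : mulHeight₁ x ≤ eb1 s) (j k : ℕ) (hj : j ≤ s) :
    mulHeight₁ ((taylor x (X ^ j : K[X])).coeff k) ≤ eb2 s := by
  rw [taylor_coeff_X_pow]
  refine (mulHeight₁_mul_le _ _).trans ?_
  have he1 : (1 : ℝ) ≤ eb1 s := by exact_mod_cast eb1_pos s
  have h1 : mulHeight₁ (x ^ (j - k)) ≤ (eb1 s : ℝ) ^ (s + 1) := by
    rw [mulHeight₁_pow]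
    exact (pow_le_pow_left₀ (mulHeight₁_nonneg _) hx _).trans (pow_le_pow_right₀ he1 (by omega))
  have h2 : mulHeight₁ ((j.choose k : ℕ) : K) ≤ ((2 : ℝ) ^ s) ^ s := by
    have := height_int_le (K := K) (j.choose k : ℤ) (2 ^ s) s Nat.one_le_two_pow
      (by rw [Nat.abs_cast]
          exact_mod_cast (Nat.choose_le_two_pow j k).trans (Nat.pow_le_pow_right (by norm_num) hj))
      hW
    push_cast at this
    exact this
  rw [eb2]
  push_cast
  rw [mul_comm (((2 : ℝ) ^ s) ^ s)]
  exact mul_le_mul h1 h2 (mulHeight₁_nonneg _) (by positivity)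

open Classical in
theorem exp_poly : ∃ B : ℕ → ℕ, Elem B ∧ ∀ (s : ℕ) (K : Type) [Field K] [NumberField K],
    Module.finrank ℚ K ≤ s → ∀ χ : ℤ[X], χ.Monic → χ.coeff 0 ≠ 0 → χ.natDegree ≤ s →
      (∀ i, |χ.coeff i| ≤ s) → (χ.map (algebraMap ℤ K)).Splits →
        ∀ u : ℕ → ℤ, (∀ i < χ.natDegree, |u i| ≤ s) → Annih χ u →
          ∃ Q : K → K[X], (∀ x, (Q x).natDegree ≤ s) ∧
            (∀ x i, mulHeight₁ ((Q x).coeff i) ≤ B s) ∧
            (∀ x, Q x ≠ 0 ↔ IsCharRoot u x) ∧
            (∀ n, (u n : K) = ∑ x ∈ (χ.aroots K).toFinset, (Q x).eval (n : K) * x ^ n) := by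
  refine ⟨eb, elem_eb, fun s K _ _ hK χ hχ hχ0 hd hcoef hs u hu hA => ?_⟩
  have hW : totalWeight K ≤ s := by rw [NumberField.totalWeight_eq_finrank]; exact hK
  set f : K[X] := χ.map (algebraMap ℤ K) with hf
  have hfm : f.Monic := hχ.map _
  have hf0 : f ≠ 0 := hfm.ne_zero
  have hdf : f.natDegree = χ.natDegree :=
    natDegree_map_eq_of_injective (algebraMap ℤ K).injective_int _
  have hroots : χ.aroots K = f.roots := rfl
  have hcard : Multiset.card f.roots = χ.natDegree := by
    rw [← hs.natDegree_eq_card_roots, hdf]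
  have hcount : ∀ x, f.roots.count x ≤ s := fun x =>
    (Multiset.count_le_card x f.roots).trans (by rw [hcard]; exact hd)
  -- roots
  have hrootmem : ∀ x ∈ f.roots, f.IsRoot x := fun x hx => (mem_roots hf0).1 hx
  have hroot0 : ∀ x ∈ f.roots, x ≠ 0 := by
    rintro x hx rfl
    have h := hrootmem _ hx
    rw [IsRoot, ← coeff_zero_eq_eval_zero, hf, coeff_map, eq_intCast] at h
    exact hχ0 (by exact_mod_cast h)
  have hrootH : ∀ x ∈ f.roots, mulHeight₁ x ≤ eb1 s := fun x hx =>
    root_height s hW χ hχ hd hcoef x (hrootmem x hx)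
  set e : Ix f ≃ Fin f.natDegree := Fintype.equivFinOfCardEq (card_Ix f hs) with he
  obtain ⟨c, hc, hcu⟩ := interp f hs hf0 e (fun j => (u j : K))
  -- heights of the coefficients
  have hcH : ∀ i, mulHeight₁ (c i) ≤ (eb3 s : ℝ) * eb3 s := by
    intro i
    rw [hc i]
    have hV : ∀ i j, mulHeight₁ ((cVan f e).transpose i j) ≤ eb2 s := by
      intro i j
      rw [Matrix.transpose_apply, cVan, Matrix.of_apply]
      exact entry_height s hW _ (hrootH _ (Multiset.mem_toFinset.1 j.1.2)) _ _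
        (by have := (e i).2; omega)
    have he2 : (1 : ℝ) ≤ eb2 s := by exact_mod_cast eb2_pos s
    have hcI : Fintype.card (Ix f) ≤ s := by rw [card_Ix f hs, hdf]; exact hd
    refine (mulHeight₁_mul_le _ _).trans ?_
    rw [mulHeight₁_inv]
    have hb : ∀ (M : Matrix (Ix f) (Ix f) K), (∀ i j, mulHeight₁ (M i j) ≤ eb2 s) →
        mulHeight₁ M.det ≤ (eb3 s : ℝ) := by
      intro M hM
      refine (height_det_le M (eb2 s : ℝ) he2 hM s hW hcI).trans (le_of_eq ?_)
      rw [eb3]; push_cast; rfl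
    refine mul_le_mul (hb _ hV) (hb _ fun a b => ?_) (mulHeight₁_nonneg _) (by positivity)
    rw [Matrix.updateCol_apply]
    split_ifs with h
    · have h1 := height_int_le (K := K) (u (e a)) (s + 1) s (by omega)
        ((hu _ (by have := (e a).2; omega)).trans (by push_cast; omega)) hW
      refine h1.trans ?_
      have h2 : (s + 1) ^ s ≤ eb2 s := by
        have h3 : (s + 1) ^ s ≤ eb1 s := Nat.le_mul_of_pos_right _ (by positivity)
        have h4 : eb1 s ≤ eb1 s ^ (s + 1) := Nat.le_self_pow (by omega) _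
        have h5 : eb1 s ^ (s + 1) ≤ eb2 s := Nat.le_mul_of_pos_left _ (by positivity)
        omega
      exact_mod_cast h2
    · exact hV a b
  set c' : K → ℕ → K := fun x k =>
    if h : x ∈ f.roots.toFinset ∧ k < f.roots.count x then c ⟨⟨x, h.1⟩, ⟨k, h.2⟩⟩ else 0 with hc'
  have hc'H : ∀ x k, mulHeight₁ (c' x k) ≤ (eb3 s : ℝ) * eb3 s := by
    intro x k
    rw [hc']
    dsimp only
    split_ifs with h
    · exact hcH _
    · rw [mulHeight₁_zero]
      have : 1 ≤ eb3 s * eb3 s := Nat.succ_le_iff.2 (Nat.mul_pos (eb3_pos s) (eb3_pos s))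
      exact_mod_cast this
  set T := f.roots.toFinset with hT
  set m : K → ℕ := fun x => f.roots.count x with hm
  have hL : ∀ F : K[X], tf T m c' F = ∑ i, c i * (taylor i.1.1 F).coeff i.2 := by
    intro F
    rw [tf_apply, Fintype.sum_sigma, ← Finset.sum_coe_sort T]
    refine Finset.sum_congr rfl fun x _ => ?_
    rw [← Fin.sum_univ_eq_sum_range (fun k => c' x.1 k * (taylor x.1 F).coeff k)]
    refine Finset.sum_congr rfl fun k _ => ?_
    rw [hc']
    dsimp only
    rw [dif_pos ⟨x.2, k.2⟩]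
  have hkill : ∀ n, tf T m c' (f * X ^ n) = 0 := by
    intro n
    refine tf_kill _ _ _ _ fun x _ => Dvd.dvd.mul_right ?_ _
    rw [hm]
    dsimp only
    rw [count_roots]
    exact pow_rootMultiplicity_dvd f x
  have hrep : ∀ n, tf T m c' (X ^ n) = (u n : K) := by
    refine lin_rep _ χ hχ u hA (fun j hj => ?_) hkill
    rw [hL]
    exact hcu j (by rw [hdf]; exact hj)
  set Q : K → K[X] := fun x => ∑ k ∈ range (m x),
    C (c' x k * (x ^ k)⁻¹ * ((k.factorial : ℕ) : K)⁻¹) * descPochhammer K k with hQ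
  have hQeval : ∀ x, x ≠ 0 → ∀ n : ℕ, (Q x).eval (n : K) * x ^ n =
      ∑ k ∈ range (m x), c' x k * (taylor x (X ^ n : K[X])).coeff k := by
    intro x hx n
    rw [hQ]
    dsimp only
    rw [eval_finsetSum, Finset.sum_mul]
    refine Finset.sum_congr rfl fun k _ => ?_
    rw [eval_mul, eval_C, descPochhammer_eval_eq_descFactorial,
      Nat.descFactorial_eq_factorial_mul_choose, taylor_coeff_X_pow]
    push_cast
    have hk0 : ((k.factorial : ℕ) : K) ≠ 0 := by exact_mod_cast k.factorial_ne_zero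
    rcases le_or_gt k n with hkn | hkn
    · have h1 : x ^ n = x ^ (n - k) * x ^ k := by rw [← pow_add, Nat.sub_add_cancel hkn]
      rw [h1]
      have hxk : x ^ k ≠ 0 := pow_ne_zero _ hx
      field_simp
    · rw [Nat.choose_eq_zero_of_lt hkn]; simp
  have hsum : ∀ T' : Finset K, (∀ x ∈ T', x ≠ 0) → ∀ n : ℕ, tf T' m c' (X ^ n) =
      ∑ x ∈ T', (Q x).eval (n : K) * x ^ n := by
    intro T' hT' n
    rw [tf_apply]
    exact Finset.sum_congr rfl fun x hx => (hQeval x (hT' x hx) n).symm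
  have hT0 : ∀ x ∈ T, x ≠ 0 := fun x hx => hroot0 x (Multiset.mem_toFinset.1 hx)
  refine ⟨Q, fun x => ?_, fun x i => ?_, fun x => ⟨fun hQx => ?_, fun hx hQx => ?_⟩, fun n => ?_⟩
  · -- degree
    refine natDegree_sum_le_of_forall_le _ _ fun k hk => ?_
    refine (natDegree_C_mul_le _ _).trans ?_
    rw [descPochhammer_natDegree]
    exact (Finset.mem_range.1 hk).le.trans (hcount x)
  · -- heights
    rw [hQ]
    dsimp only
    rw [finsetSum_coeff]
    by_cases hm0 : m x = 0
    · rw [hm0, Finset.sum_range_zero, mulHeight₁_zero]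
      exact_mod_cast eb_pos s
    have hxr : x ∈ f.roots := by
      rw [hm] at hm0
      exact Multiset.count_ne_zero.1 hm0
    have hmx : m x ≤ s := hcount x
    refine (mulHeight₁_sum_le (Finset.nonempty_range_iff.2 hm0) _).trans ?_
    have hterm : ∀ k ∈ range (m x), mulHeight₁ ((C (c' x k * (x ^ k)⁻¹ *
        ((k.factorial : ℕ) : K)⁻¹) * descPochhammer K k).coeff i) ≤ (eb4 s : ℝ) := by
      intro k hk
      have hks : k ≤ s := (Finset.mem_range.1 hk).le.trans hmx
      rw [coeff_C_mul]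
      have he1 : (1 : ℝ) ≤ eb1 s := by exact_mod_cast eb1_pos s
      have h1 : mulHeight₁ ((x ^ k)⁻¹) ≤ (eb1 s : ℝ) ^ s := by
        rw [mulHeight₁_inv, mulHeight₁_pow]
        exact (pow_le_pow_left₀ (mulHeight₁_nonneg _) (hrootH x hxr) _).trans
          (pow_le_pow_right₀ he1 hks)
      have h2 : mulHeight₁ (((k.factorial : ℕ) : K)⁻¹) ≤ (s.factorial : ℝ) ^ s := by
        rw [mulHeight₁_inv]
        have := height_int_le (K := K) (k.factorial : ℤ) s.factorial s s.factorial_pos
          (by rw [Nat.abs_cast]; exact_mod_cast Nat.factorial_le hks) hW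
        push_cast at this
        exact this
      have h3 := descPoch_height (K := K) k i s hks hW
      rw [eb4]
      push_cast
      refine (mulHeight₁_mul_le _ _).trans (mul_le_mul ?_ h3 (mulHeight₁_nonneg _)
        (by positivity))
      refine (mulHeight₁_mul_le _ _).trans (mul_le_mul ?_ h2 (mulHeight₁_nonneg _)
        (by positivity))
      exact (mulHeight₁_mul_le _ _).trans (mul_le_mul (hc'H x k) h1 (mulHeight₁_nonneg _)
        (by positivity))
    have he4 : (1 : ℝ) ≤ eb4 s := by exact_mod_cast eb4_pos s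
    rw [eb]
    push_cast
    refine mul_le_mul ?_ ?_ (Finset.prod_nonneg fun _ _ => mulHeight₁_nonneg _) (by positivity)
    · rw [Finset.card_range]
      have h1 : (1 : ℝ) ≤ (s : ℝ) + 1 := by linarith [(Nat.cast_nonneg s : (0 : ℝ) ≤ s)]
      have h2 : ((m x : ℕ) : ℝ) ≤ (s : ℝ) + 1 := by
        have : ((m x : ℕ) : ℝ) ≤ s := by exact_mod_cast hmx
        linarith
      exact (pow_le_pow_left₀ (by positivity) h2 _).trans (pow_le_pow_right₀ h1 hW)
    · refine (Finset.prod_le_prod (fun _ _ => mulHeight₁_nonneg _) hterm).trans ?_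
      rw [Finset.prod_const, Finset.card_range]
      exact pow_le_pow_right₀ he4 hmx
  · -- nonzero coefficient
    have hex : ∃ k, k < m x ∧ c' x k ≠ 0 := by
      by_contra hall
      push Not at hall
      apply hQx
      rw [hQ]
      refine Finset.sum_eq_zero fun k hk => ?_
      rw [hall k (Finset.mem_range.1 hk)]; simp
    obtain ⟨k, hk, hck⟩ := hex
    have hxT : x ∈ T := by
      rw [hT, Multiset.mem_toFinset, ← Multiset.count_pos]
      exact lt_of_le_of_lt (Nat.zero_le _) hk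
    exact charRoot_of_coeff T m c' u hrep x hxT k hk hck
  · -- zero polynomial
    set F : K[X] := ∏ y ∈ T.erase x, (X - C y) ^ m y with hF
    have hFx : F.eval x ≠ 0 := by
      rw [hF, eval_prod, Finset.prod_ne_zero_iff]
      intro y hy
      rw [eval_pow, eval_sub, eval_X, eval_C]
      exact pow_ne_zero _ (sub_ne_zero.2 fun h => (Finset.mem_erase.1 hy).1 h.symm)
    have hrep' : ∀ n, tf (T.erase x) m c' (X ^ n) = (u n : K) := by
      intro n
      rw [hsum _ (fun y hy => hT0 y (Finset.mem_of_mem_erase hy)) n, ← hrep n, hsum T hT0 n]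
      refine Finset.sum_erase _ ?_
      rw [hQx]; simp
    obtain ⟨P, hP, hPx⟩ := descend u F x hFx (fun n => by
      rw [← lin_mul_X_pow _ _ hrep']
      exact tf_kill _ _ _ _ fun y hy =>
        (Finset.dvd_prod_of_mem (fun y => (X - C y) ^ m y) hy).mul_right _)
    exact hPx (hx P hP)
  · rw [← hrep n, hsum T hT0 n]

end Pool.Agent.Work.MP_8d13b5_lc.Rk
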