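import Pool.Agent.Work.MP_8d13b5_lc.Rk.Defs

set_option autoImplicit false

/-! The classes of sequences covered by the rank theorem. -/

namespace Pool.Agent.Work.MP_8d13b5_lc.Rk

open Height AdmissibleAbsValues Polynomial Finset

/-- the quotients of the characteristic roots of `u` generate a multiplicative group of rank at
most two (up to torsion they lie in the group generated by two complex numbers) -/
def RankTwo (u : ℕ → ℤ) : Prop :=
  ∃ α β : ℂ, α ≠ 0 ∧ β ≠ 0 ∧ ∀ x y : ℂ, IsCharRoot u x → IsCharRoot u y →
    ∃ m : ℕ, 0 < m ∧ ∃ a b : ℤ, (x / y) ^ m = α ^ a * β ^ b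

/-- the splitting field over `ℚ` of an integer polynomial -/
abbrev SF (χ : ℤ[X]) : Type := (χ.map (Int.castRingHom ℚ)).SplittingField

instance (χ : ℤ[X]) : NumberField (SF χ) :=
  { to_charZero := inferInstance
    to_finiteDimensional := inferInstance }

/-- `x` is a characteristic root of `u` of maximal `v`-absolute value -/
def IsDominant {K : Type*} [Field K] (u : ℕ → ℤ) (v : AbsoluteValue K ℝ) (x : K) : Prop :=
  IsCharRoot u x ∧ ∀ y : K, IsCharRoot u y → v y ≤ v x

/-- `u` is nondegenerate and there is a place `v` of `K` such that any two quotients of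
`v`-dominant characteristic roots are multiplicatively dependent -/
def DomRankOne (K : Type) [Field K] [NumberField K] (u : ℕ → ℤ) : Prop :=
  (∀ x y : K, IsCharRoot u x → IsCharRoot u y → ∀ m : ℕ, 0 < m → x ^ m = y ^ m → x = y) ∧
    ∃ v : AbsoluteValue K ℝ, IsPlace v ∧
      ∀ x y z w : K, IsDominant u v x → IsDominant u v y → IsDominant u v z →
        IsDominant u v w → ∃ a b : ℤ, (a ≠ 0 ∨ b ≠ 0) ∧ (x / y) ^ a = (z / w) ^ b

end Pool.Agent.Work.MP_8d13b5_lc.Rk
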