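import Pool.Agent.Work.MP_8d13b5_lc.Bd.B04
import Pool.Agent.Work.MP_8d13b5_lc.USMain

set_option autoImplicit false

/-! From the input data to polynomials; computability of the bound. -/

namespace Pool.Agent.Work.MP_8d13b5_lc.Rk

open Polynomial Finset Pool.Agent.Work.MP_8d13b5_lc.US

/-- the characteristic polynomial `X^d - c_1 X^(d-1) - ... - c_d` of the recurrence with
coefficient list `c` -/
noncomputable def charPoly (c : List ℤ) : ℤ[X] :=
  X ^ c.length - ∑ i ∈ range c.length, C (c.getD (c.length - 1 - i) 0) * X ^ i

/-- the size of the input data: the order plus the absolute values of all entries -/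
def size (p : List ℤ × List ℤ) : ℕ :=
  p.1.length + (p.1.map Int.natAbs).sum + (p.2.map Int.natAbs).sum

theorem coeff_low (c : List ℤ) (i : ℕ) :
    (∑ i ∈ range c.length, C (c.getD (c.length - 1 - i) 0) * X ^ i : ℤ[X]).coeff i =
      if i < c.length then c.getD (c.length - 1 - i) 0 else 0 := by
  rw [finsetSum_coeff]
  simp only [coeff_C_mul_X_pow]
  split_ifs with h
  · rw [sum_eq_single i]
    · simp
    · intro b _ hb
      rw [if_neg (fun h' => hb h'.symm)]
    · intro h'
      exact absurd (mem_range.2 h) h'
  · refine sum_eq_zero fun b hb => ?_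
    rw [if_neg]
    rintro rfl
    exact h (mem_range.1 hb)

theorem degree_low (c : List ℤ) :
    (∑ i ∈ range c.length, C (c.getD (c.length - 1 - i) 0) * X ^ i : ℤ[X]).degree <
      c.length := by
  rw [degree_lt_iff_coeff_zero]
  intro m hm
  rw [coeff_low, if_neg (by omega)]

theorem charPoly_coeff (c : List ℤ) (i : ℕ) :
    (charPoly c).coeff i =
      (if i = c.length then 1 else 0) -
        (if i < c.length then c.getD (c.length - 1 - i) 0 else 0) := by
  unfold charPoly
  rw [coeff_sub, coeff_low, coeff_X_pow]

theorem charPoly_natDegree (c : List ℤ) : (charPoly c).natDegree = c.length := by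
  unfold charPoly
  rw [sub_eq_add_neg]
  have h := degree_low c
  rw [natDegree_add_eq_left_of_degree_lt, natDegree_X_pow]
  rw [degree_neg, degree_X_pow]
  exact h

theorem charPoly_monic (c : List ℤ) : (charPoly c).Monic := by
  rw [Monic, leadingCoeff, charPoly_natDegree, charPoly_coeff]
  simp

theorem natAbs_getD_le (l : List ℤ) (i : ℕ) : (l.getD i 0).natAbs ≤ (l.map Int.natAbs).sum := by
  by_cases h : i < l.length
  · rw [List.getD_eq_getElem _ _ h]
    exact List.le_sum_of_mem (List.mem_map_of_mem (List.getElem_mem h))
  · rw [List.getD_eq_default _ _ (by omega)]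
    simp

theorem charPoly_coeff_le (p : List ℤ × List ℤ) (hp : 1 ≤ p.1.length) (i : ℕ) :
    |(charPoly p.1).coeff i| ≤ size p := by
  rw [charPoly_coeff]
  have h1 := natAbs_getD_le p.1 (p.1.length - 1 - i)
  have h2 : (p.1.map Int.natAbs).sum ≤ size p := by unfold size; omega
  have h3 : 1 ≤ size p := by unfold size; omega
  by_cases h : i = p.1.length
  · rw [if_pos h, if_neg (by omega)]
    simp
    exact_mod_cast h3
  · rw [if_neg h]
    by_cases h' : i < p.1.length
    · rw [if_pos h', zero_sub, abs_neg, Int.abs_eq_natAbs]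
      exact_mod_cast h1.trans h2
    · rw [if_neg h']
      simp

theorem annih_charPoly (c : List ℤ) (u : ℕ → ℤ)
    (hu : ∀ n : ℕ, u (n + c.length) = ∑ j ∈ range c.length, c.getD j 0 * u (n + c.length - 1 - j)) :
    Annih (charPoly c) u := by
  intro n
  rw [charPoly_natDegree, sum_range_succ]
  have h1 : (charPoly c).coeff c.length = 1 := by rw [charPoly_coeff]; simp
  have h2 : ∀ i ∈ range c.length, (charPoly c).coeff i * u (n + i) =
      -(c.getD (c.length - 1 - i) 0 * u (n + i)) := by
    intro i hi
    rw [mem_range] at hi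
    rw [charPoly_coeff, if_neg (by omega), if_pos hi]
    ring
  rw [sum_congr rfl h2, h1, hu n, sum_neg_distrib]
  have h3 : ∑ j ∈ range c.length, c.getD j 0 * u (n + c.length - 1 - j) =
      ∑ i ∈ range c.length, c.getD (c.length - 1 - i) 0 * u (n + i) := by
    rw [← sum_range_reflect]
    refine sum_congr rfl fun i hi => ?_
    rw [mem_range] at hi
    congr 2
    omega
  rw [h3]
  ring

theorem primrec_size : Primrec size := by
  have hsum : Primrec (fun l : List ℤ => (l.map Int.natAbs).sum) := by
    have h1 : Primrec (fun l : List ℤ => l.foldr (fun a b => a.natAbs + b) 0) := by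
      refine Primrec.list_foldr (f := fun l : List ℤ => l) (g := fun _ => 0)
        (h := fun _ (q : ℤ × ℕ) => q.1.natAbs + q.2) Primrec.id (Primrec.const 0) ?_
      exact Primrec.nat_add.comp₂ (primrec_natAbs.comp₂ (Primrec.fst.comp₂ Primrec₂.right))
        (Primrec.snd.comp₂ Primrec₂.right)
    refine h1.of_eq fun l => ?_
    induction l with
    | nil => rfl
    | cons a l ih => rw [List.foldr_cons, ih, List.map_cons, List.sum_cons]
  unfold size
  exact Primrec.nat_add.comp (Primrec.nat_add.comp (Primrec.list_length.comp Primrec.fst)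
    (hsum.comp Primrec.fst)) (hsum.comp Primrec.snd)

theorem primrec_tow (k : ℕ) : Primrec (tow k) := by
  induction k with
  | zero => exact (Primrec.nat_add.comp Primrec.id (Primrec.const 2)).of_eq fun _ => rfl
  | succ k ih =>
    exact (primrec_pow.comp (Primrec.const 2) ih).of_eq fun _ => rfl

end Pool.Agent.Work.MP_8d13b5_lc.Rk
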